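import Pool.Agent.MT100B.Stmts
import Pool.Agent.Helper33_MT.Fre

/-!
# MT100B, module FRE: freeness of the tensor products of exterior squares of translated systems
-/

set_option autoImplicit false

namespace Pool.Agent.MT100B.H33

open Matrix Polynomial Pool.Agent.MT100

open Pool.Agent.MT100.H33 (Cv cv_add cv_mul ev_add ev_mul cv_of_gtype freCore en_mul_en en_zero
  en_eval)

theorem cv_neg {u : ℝ} {f : PowerSeries ℚ} (hf : Cv u f) : Cv u (-f) := by
  refine Summable.congr hf fun k => ?_
  rw [map_neg]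
  push_cast
  rw [neg_mul, abs_neg]

theorem ev_neg (u : ℝ) (f : PowerSeries ℚ) :
    MT100.H33.ev u (-f) = -MT100.H33.ev u f := by
  unfold MT100.H33.ev
  rw [← tsum_neg]
  refine tsum_congr fun k => ?_
  rw [map_neg]
  push_cast
  ring

theorem cv_sub {u : ℝ} {f g : PowerSeries ℚ} (hf : Cv u f) (hg : Cv u g) : Cv u (f - g) := by
  rw [sub_eq_add_neg]
  exact cv_add hf (cv_neg hg)

theorem ev_sub {u : ℝ} {f g : PowerSeries ℚ} (hf : Cv u f) (hg : Cv u g) :
    MT100.H33.ev u (f - g) = MT100.H33.ev u f - MT100.H33.ev u g := by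
  rw [sub_eq_add_neg, ev_add hf (cv_neg hg), ev_neg, ← sub_eq_add_neg]

/-- module FRE -/
theorem fre (hexm : ExmStmt) (htra : TraStmt) (hval : ValStmt) (hpee : PeeStmt) : FreStmt := by
  intro D ι _ _ κ hκ p hp
  obtain ⟨hs1, hs2, hs3, _⟩ := hexm
  have key := freCore (ι := ι) (d := AI (ro D)) (fun s w => ex (W D (w - κ s)))
    (fun s => ex (Tr D (κ s))) (ex (en (ro D) (X : ℝ[X]))) ?_ ?_ ?_ (fun α β => p α β) ?_
  · ext α β
    rw [key α β]; rfl
  · intro a b
    have h := congrFun (congrFun (hs3 (ro D) ℝ[X] ℝ (evalRingHom 0) (en (ro D) X)) a) b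
    have h1 : (en (ro D) (X : ℝ[X])).map (evalRingHom 0) = 1 := by
      rw [← en_zero (ro D) (R := ℝ)]
      ext l i
      exact en_eval (ro D) 0 l i
    rw [h1, hs2] at h
    exact h.symm
  · have h1 : ∀ s : ι, ∀ᶠ w : ℝ in Filter.atTop, ∀ a b,
        HasSum (fun k => ((PowerSeries.coeff k (ex (Tr D (κ s)) a b) : ℚ) : ℝ) * (1 / w) ^ k)
          (∑ c, ex (W D (w - κ s)) a c * (ex (en (ro D) (X : ℝ[X])) c b).eval (Real.log w)) := by
      intro s
      obtain ⟨K, N, q, B, hG⟩ := htra D (κ s)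
      have hcv : ∀ᶠ w : ℝ in Filter.atTop, ∀ a b, Cv w⁻¹ (Tr D (κ s) a b) := by
        rw [Filter.eventually_all]
        intro a
        rw [Filter.eventually_all]
        intro b
        exact cv_of_gtype (hG.gH a b)
      filter_upwards [hcv, hval D (κ s)] with w hw1 hw2
      intro a b
      have h2 : (Tr D (κ s)).map (fun f => MT100.ev f w⁻¹) =
          W D (w - κ s) * en (ro D) (Real.log w) := by
        rw [hw2, Matrix.mul_assoc, en_mul_en, neg_add_cancel, en_zero, Matrix.mul_one]
      have h3 : ∀ (a b : AI (ro D)), Cv w⁻¹ (ex (Tr D (κ s)) a b) ∧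
          MT100.H33.ev w⁻¹ (ex (Tr D (κ s)) a b) =
            ex ((Tr D (κ s)).map (fun f => MT100.ev f w⁻¹)) a b := by
        intro a b
        have h4 := hw1 a.1.1 b.1.1
        have h5 := hw1 a.1.2 b.1.2
        have h6 := hw1 a.1.1 b.1.2
        have h7 := hw1 a.1.2 b.1.1
        unfold ex
        simp only [Matrix.map_apply]
        refine ⟨cv_sub (cv_mul h4 h5) (cv_mul h6 h7), ?_⟩
        rw [ev_sub (cv_mul h4 h5) (cv_mul h6 h7), ev_mul h4 h5, ev_mul h6 h7]
        rfl
      have h8 : MT100.H33.ev w⁻¹ (ex (Tr D (κ s)) a b) =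
          ∑ c, ex (W D (w - κ s)) a c * (ex (en (ro D) (X : ℝ[X])) c b).eval (Real.log w) := by
        rw [(h3 a b).2, h2, hs1, Matrix.mul_apply]
        refine Finset.sum_congr rfl fun c _ => ?_
        congr 1
        have h9 := congrFun (congrFun (hs3 (ro D) ℝ[X] ℝ (evalRingHom (Real.log w))
          (en (ro D) X)) c) b
        have h10 : (en (ro D) (X : ℝ[X])).map (evalRingHom (Real.log w)) =
            en (ro D) (Real.log w) := by
          ext l i
          exact en_eval (ro D) _ l i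
        rw [h10] at h9
        exact h9
      rw [← h8, one_div]
      exact (h3 a b).1.summable.hasSum
    rw [Filter.eventually_all]
    exact h1
  · intro c hc β α
    have h := hpee D ι κ hκ c hc
    rw [h]; rfl
  · rw [Finset.sum_comm]
    exact hp

end Pool.Agent.MT100B.H33
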